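import Pool.Agent.H38.DP.Cert.Data
import Pool.Agent.H38.DP.Cert.C5s2a
import Pool.Agent.H38.DP.Cert.C5s2b

/-! Certificates. -/

namespace Pool.Agent.H38.DP

set_option maxRecDepth 100000

theorem R5_2 (gb : ℕ → ℕ) (EC : ℕ → Prop) (h : Good 5 A5_2 gb EC) : Concl 5 P5_2 gb :=
  rootOf2 (M := 5) (st := ST5_2_a_0) (by norm_num) rfl (S5_2_a (S5_2_b (ext_nil _ _ _))) gb EC h


end Pool.Agent.H38.DP
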