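import Pool.Agent.H38.DP.Cert.C234
import Pool.Agent.H38.DP.Cert.C5p1
import Pool.Agent.H38.DP.Cert.C5p2
import Pool.Agent.H38.DP.Cert.C5p3
import Pool.Agent.H38.DP.Cert.C5s1
import Pool.Agent.H38.DP.Cert.C5s2
import Pool.Agent.H38.DP.Cert.C5s3
import Pool.Agent.H38.DP.Cert.C5s4
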