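import Pool.Agent.H38.DP.CertBase

/-! Data of the searches. -/

namespace Pool.Agent.H38.DP

set_option maxRecDepth 100000

def A2_1 : List ℕ := [1, 1, 0, 1, 1, 1, 1, 1, 2, 2]
def P2_1 : List (List ℕ) := [[2, 60000], [6, 7]]
theorem T2_1 :
    eqL (tab (fun e => ([1] : List ℕ).contains (e % 2)) 9 9) A2_1 = true := by
  decide +kernel
theorem L2_1 : A2_1.length = 10 := rfl

def A3_1 : List ℕ := [1, 1, 0, 0, 1, 1, 0, 1, 1, 0, 1, 2, 1, 1, 2, 1, 1, 3, 2, 1, 3, 3, 2, 4, 4,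
  2, 4, 5, 3, 5, 7, 4, 5, 8, 6, 7, 10, 7, 7, 12, 10, 9, 14]
def P3_1 : List (List ℕ) := [[3, 60000, 60000], [9, 10, 60000], [8, 12, 60000]]
theorem T3_1 :
    eqL (tab (fun e => ([1] : List ℕ).contains (e % 3)) 42 42) A3_1 = true := by
  decide +kernel
theorem L3_1 : A3_1.length = 43 := rfl

def A3_2 : List ℕ := [1, 0, 1, 0, 0, 1, 0, 1, 1, 0, 1, 1, 0, 2, 1, 1, 2, 1, 1, 3, 1, 2, 3, 1, 3,
  4, 2, 4, 4, 2, 5, 5, 3, 7, 5, 4, 8, 6, 6, 10, 7, 7, 12, 8, 10, 14, 9, 12, 16, 11, 16, 19]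
def P3_2 : List (List ℕ) := [[60000, 3, 60000], [11, 9, 60000], [12, 7, 60000]]
theorem T3_2 :
    eqL (tab (fun e => ([2] : List ℕ).contains (e % 3)) 51 51) A3_2 = true := by
  decide +kernel
theorem L3_2 : A3_2.length = 52 := rfl

def A3_12 : List ℕ := [1, 1, 1, 1, 1, 2, 2, 3, 3, 3, 4, 5, 6, 7, 8, 9, 10]
def P3_12 : List (List ℕ) := [[2, 1, 60000], [3, 3, 4], [3, 2, 5]]
theorem T3_12 :
    eqL (tab (fun e => ([1, 2] : List ℕ).contains (e % 3)) 16 16) A3_12 = true := by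
  decide +kernel
theorem L3_12 : A3_12.length = 17 := rfl

def A3_13 : List ℕ := [1, 1, 0, 1, 2, 1, 1, 3]
def P3_13 : List (List ℕ) := [[1, 60000, 2]]
theorem T3_13 :
    eqL (tab (fun e => ([1, 0] : List ℕ).contains (e % 3)) 7 7) A3_13 = true := by
  decide +kernel
theorem L3_13 : A3_13.length = 8 := rfl

def A3_23 : List ℕ := [1, 0, 1, 1, 0, 2, 1, 1, 3]
def P3_23 : List (List ℕ) := [[60000, 2, 1]]
theorem T3_23 :
    eqL (tab (fun e => ([2, 0] : List ℕ).contains (e % 3)) 8 8) A3_23 = true := by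
  decide +kernel
theorem L3_23 : A3_23.length = 9 := rfl

def A4_1 : List ℕ := [1, 1, 0, 0, 0, 1, 1, 0, 0, 1, 1, 0, 0, 1, 2, 1, 0, 1, 2, 1, 0, 1, 3, 2, 0,
  1, 3, 3, 1, 1, 4, 4, 1, 1, 4, 5, 2, 1, 5, 7, 3, 1, 5, 8, 5, 2, 6, 10, 6, 2, 6, 12, 9, 3, 7, 14,
  11, 4, 7, 16, 15, 6, 8, 19, 18, 8, 9, 21, 23, 11, 10, 24, 27, 14, 11, 27, 34, 19]
def P4_1 : List (List ℕ) := [[4, 60000, 60000, 60000], [12, 13, 60000, 60000], [11, 16, 60000,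
  60000]]
theorem T4_1 :
    eqL (tab (fun e => ([1] : List ℕ).contains (e % 4)) 77 77) A4_1 = true := by
  decide +kernel
theorem L4_1 : A4_1.length = 78 := rfl

def A4_3 : List ℕ := [1, 0, 0, 1, 0, 0, 0, 1, 0, 0, 1, 1, 0, 0, 1, 1, 0, 0, 2, 1, 0, 1, 2, 1, 0,
  1, 3, 1, 0, 2, 3, 1, 0, 3, 4, 1, 1, 4, 4, 1, 1, 5, 5, 1, 2, 7, 5, 1, 3, 8, 6, 1, 5, 10, 6, 2, 6,
  12, 7, 2, 9, 14, 7, 3, 11, 16, 8, 4, 15, 19, 8, 6, 18, 21, 9, 8, 23, 24, 10, 11, 27, 27, 11, 14,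
  34, 30, 12, 19]
def P4_3 : List (List ℕ) := [[60000, 60000, 4, 60000], [60000, 15, 12, 60000], [60000, 16, 9,
  60000]]
theorem T4_3 :
    eqL (tab (fun e => ([3] : List ℕ).contains (e % 4)) 87 87) A4_3 = true := by
  decide +kernel
theorem L4_3 : A4_3.length = 88 := rfl

def A4_12 : List ℕ := [1, 1, 1, 1, 0, 1, 2, 2, 2, 2, 2, 3, 3, 3, 4, 5, 6, 6, 6, 7, 8, 9, 10, 11,
  13, 14, 14, 16, 18, 20, 23, 24, 27, 30, 31, 34, 37, 41, 46, 49, 53, 58, 62, 67]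
def P4_12 : List (List ℕ) := [[3, 1, 60000, 60000], [4, 4, 5, 60000], [4, 3, 6, 60000]]
theorem T4_12 :
    eqL (tab (fun e => ([1, 2] : List ℕ).contains (e % 4)) 43 43) A4_12 = true := by
  decide +kernel
theorem L4_12 : A4_12.length = 44 := rfl

def A4_13 : List ℕ := [1, 1, 0, 1, 1, 1, 1, 1, 2, 2, 2, 2, 3, 3, 3, 4, 5, 5, 5, 6, 7, 8, 8, 9, 11,
  12, 12, 14, 16, 17, 18, 20, 23, 25, 26, 29, 33, 35, 37, 41, 46, 49, 52, 57, 63, 68]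
def P4_13 : List (List ℕ) := [[2, 60000, 2, 60000], [4, 60000, 4, 5], [4, 60000, 3, 7], [6, 7, 6,
  7]]
theorem T4_13 :
    eqL (tab (fun e => ([1, 3] : List ℕ).contains (e % 4)) 45 45) A4_13 = true := by
  decide +kernel
theorem L4_13 : A4_13.length = 46 := rfl

def A4_14 : List ℕ := [1, 1, 0, 0, 1, 2, 1, 0, 1, 3]
def P4_14 : List (List ℕ) := [[1, 60000, 60000, 3]]
theorem T4_14 :
    eqL (tab (fun e => ([1, 0] : List ℕ).contains (e % 4)) 9 9) A4_14 = true := by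
  decide +kernel
theorem L4_14 : A4_14.length = 10 := rfl

def A4_23 : List ℕ := [1, 0, 1, 1, 0, 1, 1, 1, 1, 2, 2, 2, 2, 3, 2, 3, 4, 4, 5, 5, 6, 7, 6, 8, 9,
  9, 11, 12, 13, 14, 15, 17, 19, 20, 23, 25, 27, 29, 31, 35, 37, 40, 46, 48, 52, 57, 60, 66]
def P4_23 : List (List ℕ) := [[60000, 3, 1, 60000], [6, 4, 4, 60000], [7, 4, 2, 60000]]
theorem T4_23 :
    eqL (tab (fun e => ([2, 3] : List ℕ).contains (e % 4)) 47 47) A4_23 = true := by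
  decide +kernel
theorem L4_23 : A4_23.length = 48 := rfl

def A4_34 : List ℕ := [1, 0, 0, 1, 1, 0, 0, 2, 1, 0, 1, 3]
def P4_34 : List (List ℕ) := [[60000, 60000, 3, 1]]
theorem T4_34 :
    eqL (tab (fun e => ([3, 0] : List ℕ).contains (e % 4)) 11 11) A4_34 = true := by
  decide +kernel
theorem L4_34 : A4_34.length = 12 := rfl

def A4_123 : List ℕ := [1, 1, 1, 2, 1, 2, 3, 3, 4, 5, 6, 7, 8, 9, 11]
def P4_123 : List (List ℕ) := [[2, 1, 1, 60000]]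
theorem T4_123 :
    eqL (tab (fun e => ([1, 2, 3] : List ℕ).contains (e % 4)) 14 14) A4_123 = true := by
  decide +kernel
theorem L4_123 : A4_123.length = 15 := rfl

def A4_124 : List ℕ := [1, 1, 1, 1, 1, 2, 3, 3, 3, 4, 5, 6, 7, 8, 10, 12, 13, 15, 18, 21, 24, 27,
  31, 36, 41, 46, 52, 60, 68, 76, 86, 97, 109]
def P4_124 : List (List ℕ) := [[1, 1, 60000, 2], [4, 1, 4, 1], [3, 2, 3, 2]]
theorem T4_124 :
    eqL (tab (fun e => ([1, 2, 0] : List ℕ).contains (e % 4)) 32 32) A4_124 = true := by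
  decide +kernel
theorem L4_124 : A4_124.length = 33 := rfl

def A4_134 : List ℕ := [1, 1, 0, 1, 2, 2, 1, 2, 4, 4]
def P4_134 : List (List ℕ) := [[1, 60000, 2, 1]]
theorem T4_134 :
    eqL (tab (fun e => ([1, 3, 0] : List ℕ).contains (e % 4)) 9 9) A4_134 = true := by
  decide +kernel
theorem L4_134 : A4_134.length = 10 := rfl

def A4_234 : List ℕ := [1, 0, 1, 1, 1, 1, 2, 2, 2, 3, 4, 4, 5, 6, 7, 8, 9, 11, 13, 14, 17, 20, 22]
def P4_234 : List (List ℕ) := [[60000, 2, 1, 1], [4, 1, 4, 1], [3, 2, 3, 2]]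
theorem T4_234 :
    eqL (tab (fun e => ([2, 3, 0] : List ℕ).contains (e % 4)) 22 22) A4_234 = true := by
  decide +kernel
theorem L4_234 : A4_234.length = 23 := rfl

def A5_1 : List ℕ := [1, 1, 0, 0, 0, 0, 1, 1, 0, 0, 0, 1, 1, 0, 0, 0, 1, 2, 1, 0, 0, 1, 2, 1, 0,
  0, 1, 3, 2, 0, 0, 1, 3, 3, 1, 0, 1, 4, 4, 1, 0, 1, 4, 5, 2, 0, 1, 5, 7, 3, 0, 1, 5, 8, 5, 1, 1,
  6, 10, 6, 1, 1, 6, 12, 9, 2, 1, 7, 14, 11, 3, 1, 7, 16, 15, 5, 1, 8, 19, 18, 7, 2, 8, 21, 23,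
  10, 2, 9, 24, 27, 13, 3, 9, 27, 34, 18, 4, 10, 30, 39, 23, 6, 10, 33, 47, 30, 8, 11, 37, 54, 37,
  12, 12, 40, 64, 47, 15, 13, 44, 72, 57, 21, 14, 48, 84, 70, 27]
def P5_1 : List (List ℕ) := [[5, 60000, 60000, 60000, 60000], [15, 16, 60000, 60000, 60000], [14,
  20, 60000, 60000, 60000]]
theorem T5_1 :
    eqL (tab (fun e => ([1] : List ℕ).contains (e % 5)) 126 126) A5_1 = true := by
  decide +kernel
theorem L5_1 : A5_1.length = 127 := rfl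

def A5_2 : List ℕ := [1, 0, 1, 0, 0, 0, 0, 1, 0, 1, 0, 0, 1, 0, 1, 0, 0, 1, 0, 2, 0, 1, 1, 0, 2,
  0, 1, 1, 0, 3, 0, 2, 1, 0, 3, 0, 3, 1, 1, 4, 0, 4, 1, 1, 4, 0, 5, 1, 2, 5, 0, 7, 1, 3, 5, 0, 8,
  1, 5, 6, 1, 10, 1, 6, 6, 1, 12, 1, 9, 7, 2, 14, 1, 11, 7, 3, 16, 1, 15, 8, 5, 19, 1, 18, 8, 7,
  21, 2, 23, 9, 10, 24, 2, 27, 9, 13, 27, 3, 34, 10, 18, 30, 4, 39, 10, 23, 33, 6, 47, 11, 30, 37,
  8, 54, 11, 37, 40, 12, 64, 13]
def P5_2 : List (List ℕ) := [[60000, 5, 60000, 60000, 60000], [60000, 15, 60000, 17, 60000],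
  [60000, 13, 60000, 20, 60000]]
theorem T5_2 :
    eqL (tab (fun e => ([2] : List ℕ).contains (e % 5)) 119 119) A5_2 = true := by
  decide +kernel
theorem L5_2 : A5_2.length = 120 := rfl

def A5_3 : List ℕ := [1, 0, 0, 1, 0, 0, 0, 0, 1, 0, 0, 1, 0, 1, 0, 0, 1, 0, 1, 0, 0, 2, 0, 1, 1,
  0, 2, 0, 1, 1, 0, 3, 0, 1, 2, 0, 3, 0, 1, 3, 0, 4, 1, 1, 4, 0, 4, 1, 1, 5, 0, 5, 2, 1, 7, 0, 5,
  3, 1, 8, 0, 6, 5, 1, 10, 1, 6, 6, 1, 12, 1, 7, 9, 1, 14, 2, 7, 11, 1, 16, 3, 8, 15, 1, 19, 5, 8,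
  18, 1, 21, 7, 9, 23, 2, 24, 10, 9, 27, 2, 27, 13, 10, 34, 3, 30, 18, 10, 39, 4, 33, 23, 11, 47,
  6, 37, 30, 11, 54, 8, 40, 37, 12, 64, 12, 44, 47, 13, 72, 15, 48, 57, 14, 84, 21, 52, 70, 15,
  94, 27, 56, 84, 17]
def P5_3 : List (List ℕ) := [[60000, 60000, 5, 60000, 60000], [18, 60000, 15, 60000, 60000], [20,
  60000, 12, 60000, 60000]]
theorem T5_3 :
    eqL (tab (fun e => ([3] : List ℕ).contains (e % 5)) 141 141) A5_3 = true := by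
  decide +kernel
theorem L5_3 : A5_3.length = 142 := rfl

def A5_4 : List ℕ := [1, 0, 0, 0, 1, 0, 0, 0, 0, 1, 0, 0, 0, 1, 1, 0, 0, 0, 1, 1, 0, 0, 0, 2, 1,
  0, 0, 1, 2, 1, 0, 0, 1, 3, 1, 0, 0, 2, 3, 1, 0, 0, 3, 4, 1, 0, 1, 4, 4, 1, 0, 1, 5, 5, 1, 0, 2,
  7, 5, 1, 0, 3, 8, 6, 1, 0, 5, 10, 6, 1, 1, 6, 12, 7, 1, 1, 9, 14, 7, 1, 2, 11, 16, 8, 1, 3, 15,
  19, 8, 1, 5, 18, 21, 9, 1, 7, 23, 24, 9, 2, 10, 27, 27, 10, 2, 13, 34, 30, 10, 3, 18, 39, 33,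
  11, 4, 23, 47, 37, 11, 6, 30, 54, 40, 12, 8, 37, 64, 44, 12, 12, 47, 72, 48, 14, 15, 57, 84, 52,
  14, 21, 70, 94, 56, 16, 27, 84, 108, 61]
def P5_4 : List (List ℕ) := [[60000, 60000, 60000, 5, 60000], [60000, 60000, 19, 15, 60000],
  [60000, 60000, 20, 11, 60000]]
theorem T5_4 :
    eqL (tab (fun e => ([4] : List ℕ).contains (e % 5)) 147 147) A5_4 = true := by
  decide +kernel
theorem L5_4 : A5_4.length = 148 := rfl

def A5_12 : List ℕ := [1, 1, 1, 1, 0, 0, 1, 2, 2, 2, 1, 1, 2, 3, 3, 2, 2, 3, 5, 6, 5, 4, 4, 6, 8,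
  8, 7, 7, 9, 12, 13, 11, 10, 12, 16, 19, 19, 17, 18, 23, 27, 27, 25, 25, 30, 37, 40, 38, 37, 42,
  50, 55, 54, 52, 57, 68, 77, 78, 75, 78, 90]
def P5_12 : List (List ℕ) := [[4, 1, 60000, 60000, 60000], [5, 5, 6, 60000, 60000], [5, 4, 7,
  60000, 60000]]
theorem T5_12 :
    eqL (tab (fun e => ([1, 2] : List ℕ).contains (e % 5)) 60 60) A5_12 = true := by
  decide +kernel
theorem L5_12 : A5_12.length = 61 := rfl

def A5_13 : List ℕ := [1, 1, 0, 1, 1, 0, 1, 1, 1, 2, 1, 2, 2, 1, 3, 2, 2, 4, 3, 4, 4, 4, 6, 4, 6,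
  7, 5, 9, 8, 8, 11, 9, 12, 12, 12, 16, 13, 17, 19, 17, 23, 21, 24, 27, 24, 32, 30, 32, 40, 35,
  43, 45, 44, 53]
def P5_13 : List (List ℕ) := [[3, 60000, 2, 60000, 60000], [5, 60000, 5, 6, 60000], [5, 60000, 4,
  8, 60000]]
theorem T5_13 :
    eqL (tab (fun e => ([1, 3] : List ℕ).contains (e % 5)) 53 53) A5_13 = true := by
  decide +kernel
theorem L5_13 : A5_13.length = 54 := rfl

def A5_14 : List ℕ := [1, 1, 0, 0, 1, 1, 1, 1, 0, 1, 2, 2, 1, 1, 2, 3, 3, 2, 2, 3, 5, 5, 3, 3, 5,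
  7, 7, 6, 5, 7, 11, 11, 8, 8, 12, 15, 15, 13, 12, 16, 22, 22, 18, 18, 24, 30, 31, 27, 26, 33, 42,
  43, 37, 37, 47, 57, 58]
def P5_14 : List (List ℕ) := [[2, 60000, 60000, 3, 60000], [5, 60000, 60000, 5, 6], [5, 60000,
  60000, 4, 9]]
theorem T5_14 :
    eqL (tab (fun e => ([1, 4] : List ℕ).contains (e % 5)) 56 56) A5_14 = true := by
  decide +kernel
theorem L5_14 : A5_14.length = 57 := rfl

def A5_15 : List ℕ := [1, 1, 0, 0, 0, 1, 2, 1, 0, 0, 1, 3]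
def P5_15 : List (List ℕ) := [[1, 60000, 60000, 60000, 4]]
theorem T5_15 :
    eqL (tab (fun e => ([1, 0] : List ℕ).contains (e % 5)) 11 11) A5_15 = true := by
  decide +kernel
theorem L5_15 : A5_15.length = 12 := rfl

def A5_23 : List ℕ := [1, 0, 1, 1, 0, 1, 0, 1, 1, 1, 2, 1, 2, 2, 1, 3, 1, 3, 3, 2, 5, 3, 5, 5, 4,
  7, 4, 7, 7, 6, 11, 7, 11, 11, 9, 15, 10, 15, 16, 14, 22, 16, 23, 23, 20, 30, 22, 31, 32, 29, 42,
  33, 44, 45, 41, 56, 45, 59]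
def P5_23 : List (List ℕ) := [[60000, 4, 1, 60000, 60000], [60000, 5, 5, 60000, 7], [60000, 5, 3,
  60000, 8]]
theorem T5_23 :
    eqL (tab (fun e => ([2, 3] : List ℕ).contains (e % 5)) 57 57) A5_23 = true := by
  decide +kernel
theorem L5_23 : A5_23.length = 58 := rfl

def A5_24 : List ℕ := [1, 0, 1, 0, 1, 0, 1, 1, 0, 2, 0, 2, 1, 2, 2, 1, 3, 1, 3, 3, 2, 5, 2, 6, 3,
  5, 6, 4, 8, 5, 8, 8, 7, 12, 7, 13, 11, 11, 16, 11, 19, 14, 19, 21, 17, 27, 20, 27, 28, 26, 36,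
  28, 40, 37, 38, 49, 39, 55, 49, 55]
def P5_24 : List (List ℕ) := [[60000, 3, 60000, 2, 60000], [7, 5, 60000, 5, 60000], [9, 5, 60000,
  3, 60000]]
theorem T5_24 :
    eqL (tab (fun e => ([2, 4] : List ℕ).contains (e % 5)) 59 59) A5_24 = true := by
  decide +kernel
theorem L5_24 : A5_24.length = 60 := rfl

def A5_25 : List ℕ := [1, 0, 1, 0, 0, 1, 0, 2, 0, 1, 1, 0, 3]
def P5_25 : List (List ℕ) := [[60000, 2, 60000, 60000, 3]]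
theorem T5_25 :
    eqL (tab (fun e => ([2, 0] : List ℕ).contains (e % 5)) 12 12) A5_25 = true := by
  decide +kernel
theorem L5_25 : A5_25.length = 13 := rfl

def A5_34 : List ℕ := [1, 0, 0, 1, 1, 0, 0, 1, 1, 1, 0, 1, 2, 2, 1, 1, 2, 3, 2, 1, 2, 4, 4, 3, 3,
  4, 6, 6, 4, 4, 7, 9, 7, 6, 8, 11, 12, 10, 9, 12, 16, 16, 14, 14, 19, 23, 22, 19, 21, 27, 31, 29,
  26, 31, 40, 42, 38, 38, 45, 53, 55, 51]
def P5_34 : List (List ℕ) := [[60000, 60000, 4, 1, 60000], [60000, 8, 5, 5, 60000], [60000, 9, 5,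
  2, 60000]]
theorem T5_34 :
    eqL (tab (fun e => ([3, 4] : List ℕ).contains (e % 5)) 61 61) A5_34 = true := by
  decide +kernel
theorem L5_34 : A5_34.length = 62 := rfl

def A5_35 : List ℕ := [1, 0, 0, 1, 0, 1, 0, 0, 2, 0, 1, 1, 0, 3]
def P5_35 : List (List ℕ) := [[60000, 60000, 3, 60000, 2]]
theorem T5_35 :
    eqL (tab (fun e => ([3, 0] : List ℕ).contains (e % 5)) 13 13) A5_35 = true := by
  decide +kernel
theorem L5_35 : A5_35.length = 14 := rfl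

def A5_45 : List ℕ := [1, 0, 0, 0, 1, 1, 0, 0, 0, 2, 1, 0, 0, 1, 3]
def P5_45 : List (List ℕ) := [[60000, 60000, 60000, 4, 1]]
theorem T5_45 :
    eqL (tab (fun e => ([4, 0] : List ℕ).contains (e % 5)) 14 14) A5_45 = true := by
  decide +kernel
theorem L5_45 : A5_45.length = 15 := rfl

def A5_123 : List ℕ := [1, 1, 1, 2, 1, 1, 2, 2, 3, 4, 4, 5, 5, 6, 7, 7, 9, 10, 12, 14, 15, 18, 19,
  21, 25, 26, 30, 34]
def P5_123 : List (List ℕ) := [[3, 1, 1, 60000, 60000]]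
theorem T5_123 :
    eqL (tab (fun e => ([1, 2, 3] : List ℕ).contains (e % 5)) 27 27) A5_123 = true := by
  decide +kernel
theorem L5_123 : A5_123.length = 28 := rfl

def A5_124 : List ℕ := [1, 1, 1, 1, 1, 1, 2, 3, 2, 3, 3, 4, 5, 6, 6, 6, 8, 9, 11, 12, 13, 15, 17,
  20]
def P5_124 : List (List ℕ) := [[2, 1, 60000, 2, 60000]]
theorem T5_124 :
    eqL (tab (fun e => ([1, 2, 4] : List ℕ).contains (e % 5)) 23 23) A5_124 = true := by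
  decide +kernel
theorem L5_124 : A5_124.length = 24 := rfl

def A5_125 : List ℕ := [1, 1, 1, 1, 0, 1, 2, 3, 3, 2, 2, 3, 5, 6, 5, 5, 6, 9, 12, 11, 10, 11, 15,
  20, 21, 20, 20, 25, 33, 36, 36, 35, 41, 53, 60, 62, 61, 67, 83, 96, 101]
def P5_125 : List (List ℕ) := [[1, 1, 60000, 60000, 3]]
theorem T5_125 :
    eqL (tab (fun e => ([1, 2, 0] : List ℕ).contains (e % 5)) 40 40) A5_125 = true := by
  decide +kernel
theorem L5_125 : A5_125.length = 41 := rfl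

def A5_134 : List ℕ := [1, 1, 0, 1, 2, 1, 1, 2, 2, 3, 3, 3, 4, 5, 6, 6, 6, 8, 10, 10, 11, 13]
def P5_134 : List (List ℕ) := [[2, 60000, 2, 1, 60000]]
theorem T5_134 :
    eqL (tab (fun e => ([1, 3, 4] : List ℕ).contains (e % 5)) 21 21) A5_134 = true := by
  decide +kernel
theorem L5_134 : A5_134.length = 22 := rfl

def A5_135 : List ℕ := [1, 1, 0, 1, 1, 1, 2, 1, 2, 3, 2, 4, 3, 3, 6, 5, 7, 7, 7, 11, 9, 12, 14,
  12, 19, 18, 20, 25, 22, 31, 32, 33, 42, 39, 50, 54, 54, 68, 65, 79, 88]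
def P5_135 : List (List ℕ) := [[1, 60000, 2, 60000, 2]]
theorem T5_135 :
    eqL (tab (fun e => ([1, 3, 0] : List ℕ).contains (e % 5)) 40 40) A5_135 = true := by
  decide +kernel
theorem L5_135 : A5_135.length = 41 := rfl

def A5_145 : List ℕ := [1, 1, 0, 0, 1, 2, 2, 1, 0, 2, 4, 4]
def P5_145 : List (List ℕ) := [[1, 60000, 60000, 3, 1]]
theorem T5_145 :
    eqL (tab (fun e => ([1, 4, 0] : List ℕ).contains (e % 5)) 11 11) A5_145 = true := by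
  decide +kernel
theorem L5_145 : A5_145.length = 12 := rfl

def A5_234 : List ℕ := [1, 0, 1, 1, 1, 1, 1, 2, 1, 3, 2, 3, 4, 4, 5, 5, 6, 7, 7, 9, 9, 12, 13, 14]
def P5_234 : List (List ℕ) := [[60000, 3, 1, 1, 60000]]
theorem T5_234 :
    eqL (tab (fun e => ([2, 3, 4] : List ℕ).contains (e % 5)) 23 23) A5_234 = true := by
  decide +kernel
theorem L5_234 : A5_234.length = 24 := rfl

def A5_235 : List ℕ := [1, 0, 1, 1, 0, 2, 0, 2, 2, 1, 4, 1, 4]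
def P5_235 : List (List ℕ) := [[60000, 2, 1, 60000, 2]]
theorem T5_235 :
    eqL (tab (fun e => ([2, 3, 0] : List ℕ).contains (e % 5)) 12 12) A5_235 = true := by
  decide +kernel
theorem L5_235 : A5_235.length = 13 := rfl

def A5_245 : List ℕ := [1, 0, 1, 0, 1, 1, 1, 2, 0, 3, 1, 3, 3, 2, 5, 3, 6, 5, 5, 9, 5, 12, 8, 11,
  14, 11, 20, 14, 21, 22, 21, 32, 24, 36]
def P5_245 : List (List ℕ) := [[60000, 2, 60000, 2, 1]]
theorem T5_245 :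
    eqL (tab (fun e => ([2, 4, 0] : List ℕ).contains (e % 5)) 33 33) A5_245 = true := by
  decide +kernel
theorem L5_245 : A5_245.length = 34 := rfl

def A5_345 : List ℕ := [1, 0, 0, 1, 1, 1, 0, 1, 2, 2, 1, 1, 3, 4, 3, 3, 3, 6, 7, 5, 5, 7, 11]
def P5_345 : List (List ℕ) := [[60000, 60000, 3, 1, 1]]
theorem T5_345 :
    eqL (tab (fun e => ([3, 4, 0] : List ℕ).contains (e % 5)) 22 22) A5_345 = true := by
  decide +kernel
theorem L5_345 : A5_345.length = 23 := rfl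

def A5_1234 : List ℕ := [1, 1, 1, 2, 2, 2, 3, 4, 4, 6, 7, 8, 10, 12, 14, 16, 19, 22, 26, 30, 35,
  41, 47, 54, 62, 70, 80, 92]
def P5_1234 : List (List ℕ) := [[2, 1, 1, 1, 60000]]
theorem T5_1234 :
    eqL (tab (fun e => ([1, 2, 3, 4] : List ℕ).contains (e % 5)) 27 27) A5_1234 = true := by
  decide +kernel
theorem L5_1234 : A5_1234.length = 28 := rfl

def A5_1235 : List ℕ := [1, 1, 1, 2, 1, 2, 3, 3, 5, 5, 6, 8]
def P5_1235 : List (List ℕ) := [[1, 1, 1, 60000, 2]]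
theorem T5_1235 :
    eqL (tab (fun e => ([1, 2, 3, 0] : List ℕ).contains (e % 5)) 11 11) A5_1235 = true := by
  decide +kernel
theorem L5_1235 : A5_1235.length = 12 := rfl

def A5_1245 : List ℕ := [1, 1, 1, 1, 1, 2, 3, 4, 3, 4, 5, 7, 9, 9, 10, 12, 16, 19, 21, 23, 26, 33,
  39, 43, 47]
def P5_1245 : List (List ℕ) := [[1, 1, 60000, 2, 1]]
theorem T5_1245 :
    eqL (tab (fun e => ([1, 2, 4, 0] : List ℕ).contains (e % 5)) 24 24) A5_1245 = true := by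
  decide +kernel
theorem L5_1245 : A5_1245.length = 25 := rfl

def A5_1345 : List ℕ := [1, 1, 0, 1, 2, 2, 2, 2, 3, 5, 5, 5, 6, 8, 11]
def P5_1345 : List (List ℕ) := [[1, 60000, 2, 1, 1]]
theorem T5_1345 :
    eqL (tab (fun e => ([1, 3, 4, 0] : List ℕ).contains (e % 5)) 14 14) A5_1345 = true := by
  decide +kernel
theorem L5_1345 : A5_1345.length = 15 := rfl

def A5_2345 : List ℕ := [1, 0, 1, 1, 1, 2, 1, 3, 2, 4, 4, 4, 7]
def P5_2345 : List (List ℕ) := [[60000, 2, 1, 1, 1]]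
theorem T5_2345 :
    eqL (tab (fun e => ([2, 3, 4, 0] : List ℕ).contains (e % 5)) 12 12) A5_2345 = true := by
  decide +kernel
theorem L5_2345 : A5_2345.length = 13 := rfl

end Pool.Agent.H38.DP
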